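import Pool.Agent.V11261.LU.Gen
import Pool.Agent.V11261.AK.Main
import Pool.Agent.V11261.TQ.Fin

set_option autoImplicit false
set_option linter.unusedVariables false
set_option linter.unusedSectionVars false

universe u

open MvPolynomial Pool.Agent.H519R3.RS Pool.Agent.W558

namespace Pool.Agent.V11261.LU

/-- Local uniformization of a field extension. -/
def HasLU (k E : Type u) [Field k] [Field E] [Algebra k E] : Prop :=
  ∀ V : ValuationSubring E, (∀ c : k, algebraMap k E c ∈ V) → ∀ s : Finset E, (∀ x ∈ s, x ∈ V) →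
    ∃ C' : Subalgebra k E, Algebra.Smooth k C' ∧ (∀ x ∈ s, x ∈ C') ∧ ∀ x ∈ C', x ∈ V

/-- Local uniformization from log smooth models. -/
theorem hasLU_of_hasLM {k E : Type u} [Field k] [Field E] [Algebra k E]
    (h : Pool.Agent.W418.LCI.HasLM k E) : HasLU k E := by
  classical
  intro V hkV s hs
  let W : Finset E := insert 1 (s.filter fun x => x ≠ 0)
  let g : Fin W.card → E := fun i => (W.equivFin.symm i).1
  have hgW : ∀ i, g i ∈ W := fun i => (W.equivFin.symm i).2
  have hg : ∀ x ∈ W, ∃ i, g i = x := fun x hx => ⟨W.equivFin ⟨x, hx⟩, by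
    change (W.equivFin.symm (W.equivFin ⟨x, hx⟩)).1 = x
    rw [Equiv.symm_apply_apply]⟩
  have hg0 : ∀ i, g i ≠ 0 := by
    intro i
    rcases Finset.mem_insert.1 (hgW i) with h1 | h1
    · rw [h1]; exact one_ne_zero
    · exact (Finset.mem_filter.1 h1).2
  obtain ⟨T, I, i1, i2, M, Γ, hFn, -⟩ := h (Fin W.card) g hg0
  obtain ⟨T'', I'', l1, l2, l3, M'', Γ'', hE'', hC⟩ := princ_all g M Γ
  have hF := hE''.fn hFn
  obtain ⟨t, ht⟩ := M''.cv V (by
    intro a ha
    obtain ⟨c, rfl⟩ := Algebra.mem_bot.1 ha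
    exact hkV c)
  obtain ⟨i0, hi0⟩ := hg 1 (Finset.mem_insert_self _ _)
  have hcmp : ∀ x ∈ s, x ≠ 0 → x ∈ M''.A t ∨ x⁻¹ ∈ M''.A t := by
    intro x hx hx0
    obtain ⟨i, hi⟩ := hg x (Finset.mem_insert_of_mem (Finset.mem_filter.2 ⟨hx, hx0⟩))
    rcases hC i0 i t with h1 | h1
    · left
      have h2 := div_mem_of_le M'' t g Γ'' hF h1
      rwa [hi0, hi, div_one] at h2
    · right
      have h2 := div_mem_of_le M'' t g Γ'' hF h1
      rwa [hi0, hi, one_div] at h2
  have key : ∀ s' : Finset E, s' ⊆ s → ∃ C' : Subalgebra k E, Algebra.Smooth k C' ∧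
      M''.A t ≤ C' ∧ (∀ x ∈ s', x ∈ C') ∧ ∀ x ∈ C', x ∈ V := by
    intro s'
    induction s' using Finset.induction_on with
    | empty => intro _; exact ⟨M''.A t, M''.sm t, le_rfl, by simp, ht⟩
    | insert a s' ha ih =>
      intro hs'
      obtain ⟨C', h1, h2, h3, h4⟩ := ih fun x hx => hs' (Finset.mem_insert_of_mem hx)
      have has : a ∈ s := hs' (Finset.mem_insert_self _ _)
      by_cases ha0 : a = 0
      · refine ⟨C', h1, h2, fun x hx => ?_, h4⟩
        rcases Finset.mem_insert.1 hx with rfl | hx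
        · rw [ha0]; exact C'.zero_mem
        · exact h3 x hx
      rcases hcmp a has ha0 with h5 | h5
      · refine ⟨C', h1, h2, fun x hx => ?_, h4⟩
        rcases Finset.mem_insert.1 hx with rfl | hx
        · exact h2 h5
        · exact h3 x hx
      · have h6 := smooth_adj_inv (A := C') (h := a⁻¹) (h2 h5) (inv_ne_zero ha0)
        rw [inv_inv] at h6
        refine ⟨adj C' a, h6, h2.trans (le_adj C' a), fun x hx => ?_, fun x hx => ?_⟩
        · rcases Finset.mem_insert.1 hx with rfl | hx
          · exact self_mem_adj C' x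
          · exact le_adj C' a (h3 x hx)
        · refine adj_induction C' a (p := fun x => x ∈ V) h4 ?_ ?_ x hx
          · intro x y hx hy; exact V.add_mem _ _ hx hy
          · intro x hx; exact V.mul_mem _ _ hx (hs a has)
  obtain ⟨C', h1, -, h3, h4⟩ := key s (Finset.Subset.refl _)
  exact ⟨C', h1, h3, h4⟩

/-- The base. -/
theorem exists_base {k B E : Type u} [Field k] [CommRing B] [Algebra k B] [Algebra.FiniteType k B]
    [Field E] [Algebra k E] [Algebra B E] [IsScalarTower k B E] (h : HasLU k E)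
    (VE : ValuationSubring E) (hVE : ∀ b : B, algebraMap B E b ∈ VE) (s : Finset E) :
    ∃ C' : Subalgebra k E, Algebra.Smooth k C' ∧ (∀ b : B, algebraMap B E b ∈ C') ∧
      (∀ x ∈ C', x ∈ VE) ∧ ∀ x ∈ s, x ∈ VE → x ∈ C' := by
  classical
  obtain ⟨Gn, hGn⟩ := (Algebra.FiniteType.out (R := k) (A := B))
  obtain ⟨C', h1, h2, h3⟩ := h VE (fun c => by
    rw [IsScalarTower.algebraMap_apply k B E]
    exact hVE _) (Gn.image (algebraMap B E) ∪ s.filter (fun x => x ∈ VE)) (by
    intro x hx
    rcases Finset.mem_union.1 hx with hx | hx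
    · obtain ⟨b, -, rfl⟩ := Finset.mem_image.1 hx
      exact hVE b
    · exact (Finset.mem_filter.1 hx).2)
  refine ⟨C', h1, ?_, h3, fun x hx hxV => h2 x (Finset.mem_union_right _
    (Finset.mem_filter.2 ⟨hx, hxV⟩))⟩
  intro b
  have h4 : Algebra.adjoin k (Gn : Set B) ≤ C'.comap (IsScalarTower.toAlgHom k B E) := by
    rw [Algebra.adjoin_le_iff]
    intro x hx
    exact h2 _ (Finset.mem_union_left _ (Finset.mem_image_of_mem _ hx))
  have h5 : b ∈ Algebra.adjoin k (Gn : Set B) := by rw [hGn]; exact Algebra.mem_top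
  exact h4 h5

section TQ

open Pool.Agent.V11261.TQ

/-- The data for the translation group schemes. -/
theorem data_TQ {k B E : Type u} [Field k] [CommRing B] [IsDomain B] [Algebra k B] [Field E]
    [Algebra k E] [Algebra B E] [IsScalarTower k B E] [IsFractionRing B E] {p : ℕ}
    [Fact p.Prime] [CharP B p] {σ : Type} (L : List (Op B σ)) (hL : L.Pairwise
      (fun o1 o2 => Lam o2.q o2.b ∣ Polynomial.X ^ o1.q - Polynomial.C (o2.β o1.q) * Polynomial.X))
    (hOk : ∀ o ∈ L, (∃ s, o.q = p ^ s) ∧ (1 < o.q ∨ o.b = 0)) :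
    Pool.Agent.V11261.AK.Data (E := E) (ring k L) (ring k (L.map (Op.map (algebraMap B E)))) where
  iff f := by
    have h0 : ∀ o ∈ L, ((Op.map (algebraMap B E) o).Inv (MvPolynomial.map (algebraMap B E) f) ↔
        Inv o.w o.q o.b f) := fun o ho =>
      inv_map (φ := algebraMap B E) (IsFractionRing.injective B E) o.w (hOk o ho).2 f
    constructor
    · intro h o ho
      exact (h0 o ho).1 (h (Op.map (algebraMap B E) o) (List.mem_map_of_mem ho))
    · intro h o' ho'
      obtain ⟨o, ho, rfl⟩ := List.mem_map.1 ho'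
      exact (h0 o ho).2 (h o ho)
  const a := C_mem_ring (k := k) _ a
  int j := by
    obtain ⟨P, h1, h2, h3⟩ := exists_monic (p := p) j L hL hOk
    exact ⟨P, h1, h2, h3⟩

/-- Local uniformization of the quotients by translation group schemes. -/
theorem lu_TQ {k B : Type} [Field k] [CommRing B] [IsDomain B] [Algebra k B]
    [Algebra.FiniteType k B] (hE : HasLU k (FractionRing B))
    {p : ℕ} [Fact p.Prime] [CharP B p] {σ : Type}
    [Fintype σ] [DecidableEq σ] (L : List (Op B σ)) (hL : L.Pairwise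
      (fun o1 o2 => Lam o2.q o2.b ∣ Polynomial.X ^ o1.q - Polynomial.C (o2.β o1.q) * Polynomial.X))
    (hOk : ∀ o ∈ L, (∃ s, o.q = p ^ s) ∧ (1 < o.q ∨ o.b = 0))
    (P : Ideal (ring k L)) [P.IsPrime] (R : Type) [CommRing R] [IsLocalRing R]
    [Algebra (ring k L) R] [IsLocalization.AtPrime R P] : AdmitsLU R := by
  classical
  let E := FractionRing B
  have hEp : CharP E p := charP_of_injective_algebraMap (IsFractionRing.injective B E) p
  obtain ⟨S, hS, hS'⟩ := chart k (p := p) L.length (L.map (Op.map (algebraMap B E)))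
    (by rw [List.length_map]) (by
      rw [List.pairwise_map]
      refine hL.imp ?_
      intro o1 o2 h
      have h1 := Polynomial.map_dvd (algebraMap B E) h
      rw [Lam_map, Polynomial.map_sub, Polynomial.map_mul, Polynomial.map_pow, Polynomial.map_X,
        Polynomial.map_C] at h1
      exact h1) (by
      intro o' ho'
      obtain ⟨o, ho, rfl⟩ := List.mem_map.1 ho'
      exact ⟨(hOk o ho).1, (hOk o ho).2.imp_right fun h => by
        change algebraMap B E o.b = 0
        rw [h, map_zero]⟩)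
  refine (data_TQ (k := k) (E := E) L hL hOk).lu ?_ P R
  intro VE hVE
  obtain ⟨C', h1, h2, h3, h4⟩ := exists_base hE VE hVE ((S ×ˢ S).image fun x => x.1 / x.2)
  refine ⟨C', h1, h2, h3, hS' C' ?_ ?_⟩
  · intro o' ho'
    obtain ⟨o, ho, rfl⟩ := List.mem_map.1 ho'
    exact ⟨fun j => h2 _, h2 _, fun n => h2 _⟩
  · intro a ha b hb
    rcases VE.mem_or_inv_mem (a / b) with h5 | h5
    · exact Or.inl (h4 _ (Finset.mem_image.2 ⟨(a, b), Finset.mem_product.2 ⟨ha, hb⟩, rfl⟩) h5)
    · rw [inv_div] at h5
      exact Or.inr (h4 _ (Finset.mem_image.2 ⟨(b, a), Finset.mem_product.2 ⟨hb, ha⟩, rfl⟩) h5)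

end TQ

section AK

open Pool.Agent.V11261.AK

/-- Local uniformization of the quotients by kernels of additive polynomials. -/
theorem lu_AK_aux {k B : Type} [Field k] [CommRing B] [IsDomain B] [Algebra k B]
    [Algebra.FiniteType k B] (hE : HasLU k (FractionRing B))
    {p : ℕ} [Fact p.Prime] [CharP B p] {r : ℕ} {σ : Type}
    [Fintype σ] [DecidableEq σ] (w : Fin r → σ → B)
    (hw : ∀ i i', i ≠ i' → ∀ j, w i j = 0 ∨ w i' j = 0) (s : Fin r → ℕ) (a : Fin r → ℕ → B)
    (L : List ((σ → B) × Polynomial B)) (hLdef : L = lst w fun i => ap p (s i) (a i))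
    (P : Ideal (ring k L)) [P.IsPrime] (R : Type) [CommRing R]
    [IsLocalRing R] [Algebra (ring k L) R]
    [IsLocalization.AtPrime R P] : AdmitsLU R := by
  classical
  have hp : p.Prime := Fact.out
  let E := FractionRing B
  have hEp : CharP E p := charP_of_injective_algebraMap (IsFractionRing.injective B E) p
  have hinj : ∀ b : B, algebraMap B E b = 0 ↔ b = 0 := fun b =>
    FaithfulSMul.algebraMap_eq_zero_iff B E
  have hP : L.Pairwise (fun o1 o2 => ∀ j, o1.1 j = 0 ∨ o2.1 j = 0) := by
    rw [hLdef, lst, List.pairwise_map]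
    exact (List.nodup_finRange r).imp fun h j => hw _ _ h j
  have hmem : ∀ o ∈ L, ∃ i, o = (w i, ap p (s i) (a i)) := by
    intro o ho
    rw [hLdef] at ho
    obtain ⟨i, -, rfl⟩ := List.mem_map.1 ho
    exact ⟨i, rfl⟩
  have hD : Data (E := E) (ring k L) (ring k (L.map (bc E))) := by
    refine data L hP fun o ho => ?_
    obtain ⟨i, rfl⟩ := hmem o ho
    refine ⟨ap_monic _ _ _, ?_, ?_⟩
    · change 0 < (ap p (s i) (a i)).natDegree
      rw [ap_natDegree]
      exact pow_pos hp.pos _
    · change Addv σ ((ap p (s i) (a i)).map (algebraMap B E))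
      rw [ap_map]
      exact ap_addv p (s i) _
  refine hD.lu ?_ P R
  intro VE hVE
  obtain ⟨C', h1, h2, h3, h4⟩ := exists_base hE VE hVE
    ((Finset.univ : Finset (Fin r × σ × σ)).image fun x =>
      algebraMap B E (w x.1 x.2.1) / algebraMap B E (w x.1 x.2.2))
  refine ⟨C', h1, h2, h3, chart (C' := C') (L.map (bc E)) ?_ ?_⟩
  · rw [List.pairwise_map]
    refine hP.imp ?_
    intro o1 o2 h j
    rcases h j with h | h
    · left
      change algebraMap B E (o1.1 j) = 0
      rw [h, map_zero]
    · right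
      change algebraMap B E (o2.1 j) = 0
      rw [h, map_zero]
  · intro o' ho'
    obtain ⟨o, ho, rfl⟩ := List.mem_map.1 ho'
    obtain ⟨i, rfl⟩ := hmem o ho
    refine ⟨fun j => h2 _, ?_, ?_, ?_, ?_, ?_⟩
    · intro l
      change ((ap p (s i) (a i)).map (algebraMap B E)).coeff l ∈ C'
      rw [Polynomial.coeff_map]
      exact h2 _
    · exact (ap_monic p (s i) (a i)).map _
    · change 0 < ((ap p (s i) (a i)).map (algebraMap B E)).natDegree
      rw [ap_map, ap_natDegree]
      exact pow_pos hp.pos _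
    · change Addv σ ((ap p (s i) (a i)).map (algebraMap B E))
      rw [ap_map]
      exact ap_addv p (s i) _
    · by_cases h0 : w i = 0
      · left
        funext j
        change algebraMap B E (w i j) = 0
        rw [h0, Pi.zero_apply, map_zero]
      · right
        have h5 : (fun j => algebraMap B E (w i j)) ≠ 0 := by
          intro h
          apply h0
          funext j
          exact (hinj _).1 (congrFun h j)
        obtain ⟨e, he0, he⟩ := Pool.Agent.V11261.TQ.exists_min_index (C' := C') h5 (by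
          intro j j' _ _
          rcases VE.mem_or_inv_mem (algebraMap B E (w i j) / algebraMap B E (w i j')) with h6 | h6
          · exact Or.inl (h4 _ (Finset.mem_image.2 ⟨(i, j, j'), Finset.mem_univ _, rfl⟩) h6)
          · rw [inv_div] at h6
            exact Or.inr (h4 _ (Finset.mem_image.2 ⟨(i, j', j), Finset.mem_univ _, rfl⟩) h6))
        exact ⟨e, he0, he⟩

/-- Local uniformization of the quotients by kernels of additive polynomials. -/
theorem lu_AK {k B : Type} [Field k] [CommRing B] [IsDomain B] [Algebra k B]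
    [Algebra.FiniteType k B] (hE : HasLU k (FractionRing B))
    {p : ℕ} [Fact p.Prime] [CharP B p] {r : ℕ} {σ : Type}
    [Fintype σ] [DecidableEq σ] (w : Fin r → σ → B)
    (hw : ∀ i i', i ≠ i' → ∀ j, w i j = 0 ∨ w i' j = 0) (s : Fin r → ℕ) (a : Fin r → ℕ → B)
    (P : Ideal (ring k (lst w fun i => ap p (s i) (a i)))) [P.IsPrime] (R : Type) [CommRing R]
    [IsLocalRing R] [Algebra (ring k (lst w fun i => ap p (s i) (a i))) R]
    [IsLocalization.AtPrime R P] : AdmitsLU R :=
  lu_AK_aux hE w hw s a _ rfl P R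

end AK

end Pool.Agent.V11261.LU
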