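import Pool.Agent.V11261.AK.Gen
import Pool.Agent.H519R3.RS.LUS

set_option autoImplicit false
set_option linter.unusedVariables false
set_option linter.unusedSectionVars false

open MvPolynomial Pool.Agent.H519R3.RS

namespace Pool.Agent.V11261.AK

open Pool.Agent.V11261.TQ (cf mem_cf C_mem_cf X_mem_cf aeval_mem_cf)

/-- Local uniformization of the rings of invariants. -/
theorem Data.lu {k B E : Type} [Field k] [CommRing B] [IsDomain B] [Algebra k B] [Field E]
    [Algebra k E] [Algebra B E] [IsScalarTower k B E] [IsFractionRing B E] {σ : Type} [Finite σ]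
    {AB : Subalgebra k (MvPolynomial σ B)} {AE : Subalgebra k (MvPolynomial σ E)}
    (h : Data AB AE)
    (H : ∀ VE : ValuationSubring E, (∀ b : B, algebraMap B E b ∈ VE) →
      ∃ C' : Subalgebra k E, Algebra.Smooth k C' ∧ (∀ b : B, algebraMap B E b ∈ C') ∧
        (∀ x ∈ C', x ∈ VE) ∧ ∃ φ : MvPolynomial σ E →ₐ[E] MvPolynomial σ E,
        Function.Injective φ ∧ ∀ f, (f ∈ cf σ C' ∧ f ∈ AE) ↔ ∃ g ∈ cf σ C', f = φ g)
    (P : Ideal AB) [P.IsPrime] (R : Type) [CommRing R] [IsLocalRing R] [Algebra AB R]
    [IsLocalization.AtPrime R P] : AdmitsLU R := by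
  classical
  intro KA _ _ _ V hV hVm
  -- the embeddings
  let ψ : B →ₐ[k] E := IsScalarTower.toAlgHom k B E
  have hψ : Function.Injective ψ := IsFractionRing.injective B E
  let K := FractionRing (MvPolynomial σ E)
  let ι : MvPolynomial σ E →ₐ[k] K := IsScalarTower.toAlgHom k (MvPolynomial σ E) K
  have hι : Function.Injective ι := IsFractionRing.injective (MvPolynomial σ E) K
  let mE : MvPolynomial σ B →ₐ[k] MvPolynomial σ E := MvPolynomial.mapAlgHom ψ
  have hmE : Function.Injective mE := MvPolynomial.map_injective _ hψ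
  have hmc : ∀ f d, coeff d (mE f) = ψ (coeff d f) := fun f d => coeff_map _ _ _
  let γ : AB →ₐ[k] K := ι.comp (mE.comp AB.val)
  have hγ : Function.Injective γ := hι.comp (hmE.comp Subtype.val_injective)
  let c : E →+* K := (ι : MvPolynomial σ E →+* K).comp C
  have hc : Function.Injective c := hι.comp (C_injective σ E)
  let g0 : AB →+* KA := (algebraMap R KA).comp (algebraMap AB R)
  let _ : Algebra k KA := (g0.comp (algebraMap k AB)).toAlgebra
  let g : AB →ₐ[k] KA := { g0 with commutes' := fun r => rfl }
  have hginj : Function.Injective g := by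
    have e1 : Function.Injective (algebraMap AB R) :=
      IsLocalization.injective R P.primeCompl_le_nonZeroDivisors
    have e2 : Function.Injective (algebraMap R KA) := IsFractionRing.injective R KA
    exact e2.comp e1
  have hdomR : IsDomain R := IsLocalization.isDomain_of_le_nonZeroDivisors R
    P.primeCompl_le_nonZeroDivisors
  -- the embedding of `KA`
  have hu : ∀ y : P.primeCompl, IsUnit ((γ : AB →+* K) y) := by
    intro y
    refine IsUnit.mk0 _ ?_
    intro h0
    have h1 : (y : AB) = 0 := hγ (h0.trans (map_zero γ).symm)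
    exact y.2 (by rw [h1]; exact P.zero_mem)
  let jR : R →+* K := IsLocalization.lift (M := P.primeCompl) (g := (γ : AB →+* K)) hu
  have hjR : ∀ a, jR (algebraMap AB R a) = γ a := fun a => IsLocalization.lift_eq hu a
  have hjRinj : Function.Injective jR := by
    rw [injective_iff_map_eq_zero]
    intro x hx
    obtain ⟨a, s, rfl⟩ := IsLocalization.exists_mk'_eq P.primeCompl x
    have h1 : jR (IsLocalization.mk' R a s) * jR (algebraMap AB R s) = γ a := by
      rw [← map_mul, IsLocalization.mk'_spec, hjR]
    rw [hx, zero_mul] at h1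
    have h2 : a = 0 := hγ (h1.symm.trans (map_zero γ).symm)
    rw [h2, IsLocalization.mk'_zero]
  let j : KA →+* K := IsFractionRing.lift hjRinj
  have hj : ∀ a, j (g a) = γ a := by
    intro a
    have h1 : j (algebraMap R KA (algebraMap AB R a)) = jR (algebraMap AB R a) :=
      IsFractionRing.lift_algebraMap hjRinj _
    rw [← hjR]
    exact h1
  have hjinj : Function.Injective j := j.injective
  have hjk : ∀ r : k, j (algebraMap k KA r) = algebraMap k K r := by
    intro r
    change j (g (algebraMap k AB r)) = _
    rw [hj, AlgHom.commutes]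
  let j' : KA →ₐ[k] K := { j with commutes' := hjk }
  -- the embedding of `E` in `KA`
  let cB : B →+* AB :=
    { toFun := fun a => ⟨C a, h.C_mem a⟩
      map_one' := Subtype.ext C_1
      map_mul' := fun a b => Subtype.ext C_mul
      map_zero' := Subtype.ext C_0
      map_add' := fun a b => Subtype.ext C_add }
  have hcB : Function.Injective ((g : AB →+* KA).comp cB) := by
    refine hginj.comp ?_
    intro a b hab
    exact C_injective σ B (congrArg Subtype.val hab)
  let eA : E →+* KA := IsFractionRing.lift hcB
  have heA : ∀ b : B, eA (algebraMap B E b) = g (cB b) := fun b =>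
    IsFractionRing.lift_algebraMap hcB b
  have hγc : ∀ b : B, γ (cB b) = c (ψ b) := by
    intro b
    change ι (mE (C b)) = ι (C (ψ b))
    have : mE (C b) = C (ψ b) := map_C _ _
    rw [this]
  have hjc : ∀ x : E, j (eA x) = c x := by
    have h1 : j.comp eA = c := by
      apply IsLocalization.ringHom_ext (nonZeroDivisors B)
      ext b
      change j (eA (algebraMap B E b)) = c (algebraMap B E b)
      rw [heA, hj, hγc]
      rfl
    exact fun x => DFunLike.congr_fun h1 x
  -- the chart
  let VE : ValuationSubring E := V.comap eA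
  have hVE : ∀ x, x ∈ VE ↔ eA x ∈ V := fun x => Iff.rfl
  obtain ⟨C', hsm, hBC, hCV, φ, hφ, hφ'⟩ := H VE (by
    intro b
    rw [hVE, heA]
    exact hV _)
  have hconst : ∀ (a : E) (f : MvPolynomial σ E), f ∈ AE → C a * f ∈ AE := by
    intro a f h'
    exact AE.mul_mem (h.const a) h'
  let DK : Subalgebra k K := (cf σ C' ⊓ AE).map ι
  have hsmDK : Algebra.Smooth k DK := by
    have h0 : Algebra.Smooth C' (MvPolynomial σ C') := ⟨inferInstance, inferInstance⟩
    have h1 : Algebra.Smooth k (MvPolynomial σ C') :=
      Algebra.Smooth.comp k C' (MvPolynomial σ C')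
    let Φ : MvPolynomial σ C' →ₐ[k] K :=
      ι.comp ((φ.restrictScalars k).comp (MvPolynomial.mapAlgHom C'.val))
    have hΦ : Function.Injective Φ :=
      hι.comp (hφ.comp (MvPolynomial.map_injective _ Subtype.val_injective))
    have h2 : Φ.range = DK := by
      apply le_antisymm
      · rintro _ ⟨f, rfl⟩
        have h3 := (hφ' (φ (MvPolynomial.mapAlgHom C'.val f))).2 ⟨_, ⟨f, rfl⟩, rfl⟩
        exact ⟨_, h3, rfl⟩
      · rintro _ ⟨f, ⟨h3, h4⟩, rfl⟩
        obtain ⟨g', ⟨g'', rfl⟩, hg'⟩ := (hφ' f).1 ⟨h3, h4⟩
        exact ⟨g'', by rw [hg']; rfl⟩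
    rw [← h2]
    exact Algebra.Smooth.of_equiv (A := MvPolynomial σ C') (B := Φ.range)
      (AlgEquiv.ofInjective Φ hΦ)
  have hrange : ∀ f : MvPolynomial σ E, f ∈ AE → ∃ x : KA, j x = ι f := by
    intro f hf
    obtain ⟨⟨b, hb⟩, hb'⟩ := IsLocalization.exist_integer_multiples_of_finset
      (nonZeroDivisors B) (f.support.image fun d => coeff d f)
    have hb0 : b ≠ 0 := nonZeroDivisors.ne_zero hb
    have h1 : ∀ d, ∃ b' : B, ψ b' = coeff d (C (ψ b) * f) := by
      intro d
      rw [coeff_C_mul]
      by_cases hd : d ∈ f.support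
      · obtain ⟨b', hb''⟩ := hb' _ (Finset.mem_image_of_mem _ hd)
        refine ⟨b', ?_⟩
        change algebraMap B E b' = algebraMap B E b * _
        rw [hb'', Algebra.smul_def]
      · refine ⟨0, ?_⟩
        rw [notMem_support_iff.1 hd, mul_zero, map_zero]
    choose b' hb'' using h1
    have h6 := MvPolynomial.as_sum (C (ψ b) * f : MvPolynomial σ E)
    let f' : MvPolynomial σ B := ∑ d ∈ (C (ψ b) * f : MvPolynomial σ E).support, monomial d (b' d)
    have hf' : mE f' = C (ψ b) * f := by
      refine Eq.trans ?_ h6.symm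
      rw [map_sum]
      refine Finset.sum_congr rfl fun d _ => ?_
      rw [← hb'' d]
      exact map_monomial _ _ _
    have h7 : f' ∈ AB := by
      rw [← h.iff]
      have h8 : MvPolynomial.map (algebraMap B E) f' = C (ψ b) * f := hf'
      rw [h8]
      exact hconst _ _ hf
    refine ⟨g ⟨f', h7⟩ / eA (ψ b), ?_⟩
    rw [map_div₀, hj, hjc]
    have h9 : γ ⟨f', h7⟩ = c (ψ b) * ι f := by
      change ι (mE f') = _
      rw [hf', map_mul]
      rfl
    have h10 : c (ψ b) ≠ 0 := (map_ne_zero_iff c hc).2 ((map_ne_zero_iff ψ hψ).2 hb0)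
    rw [h9, mul_div_cancel_left₀ _ h10]
  let D : Subalgebra k KA := DK.comap j'
  have hD : D.map j' = DK := by
    apply le_antisymm
    · rintro _ ⟨x, hx, rfl⟩
      exact hx
    · rintro _ ⟨f, ⟨h1, h2⟩, rfl⟩
      obtain ⟨x, hx⟩ := hrange f h2
      refine ⟨x, ?_, hx⟩
      change j x ∈ DK
      rw [hx]
      exact ⟨f, ⟨h1, h2⟩, rfl⟩
  have hsmD : Algebra.Smooth k D := by
    have e : D ≃ₐ[k] D.map j' := Subalgebra.equivMapOfInjective D j' hjinj
    rw [← hD] at hsmDK
    exact Algebra.Smooth.of_equiv e.symm
  refine lu_local P g (fun a => rfl) V hV ?_ D hsmD ?_ ?_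
  · intro a ha hlt
    have h3 := (hVm (algebraMap AB R a)).2 hlt
    exact h3 (IsLocalization.map_units R (⟨a, ha⟩ : P.primeCompl))
  · intro a
    change j (g a) ∈ DK
    rw [hj]
    refine ⟨mE a.1, ⟨mem_cf.2 fun d => ?_, (h.iff _).2 a.2⟩, rfl⟩
    rw [hmc]
    exact hBC _
  · -- the chart is contained in the valuation ring
    let _ : Algebra KA K := j.toAlgebra
    let _ : Algebra V K := (j.comp (algebraMap V KA)).toAlgebra
    have _ : IsScalarTower V KA K := IsScalarTower.of_algebraMap_eq fun x => rfl
    have hX : ∀ i, IsIntegral V (ι (X i)) := by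
      intro i
      obtain ⟨Q, h2, h3, h4⟩ := h.int i
      let y : AB := ⟨Polynomial.aeval (X i : MvPolynomial σ B) Q, h4⟩
      have hy : g y ∈ V := hV _
      have hb : ∀ b : B, g (cB b) ∈ V := fun b => hV _
      let cV : B →+* V :=
        { toFun := fun a => ⟨g (cB a), hb a⟩
          map_one' := Subtype.ext (by simp)
          map_mul' := fun a b => Subtype.ext (by simp)
          map_zero' := Subtype.ext (by simp)
          map_add' := fun a b => Subtype.ext (by simp) }
      refine ⟨Q.map cV - Polynomial.C ⟨g y, hy⟩, ?_, ?_⟩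
      · refine Polynomial.Monic.sub_of_left (h2.map cV) ?_
        rw [Polynomial.degree_eq_natDegree (h2.map cV).ne_zero, h2.natDegree_map]
        refine lt_of_le_of_lt Polynomial.degree_C_le ?_
        exact_mod_cast h3
      · rw [Polynomial.eval₂_sub, Polynomial.eval₂_C, Polynomial.eval₂_map]
        have h5 : (algebraMap V K).comp cV = (c.comp (ψ : B →+* E)) := by
          ext b
          change j (g (cB b)) = c (ψ b)
          rw [hj, hγc]
        rw [h5]
        have h6 : γ y = Polynomial.eval₂ (c.comp (ψ : B →+* E)) (ι (X i)) Q := by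
          change ι (mE (Polynomial.aeval (X i : MvPolynomial σ B) Q)) = _
          rw [Polynomial.aeval_def]
          have h7 := Polynomial.hom_eval₂ Q (algebraMap B (MvPolynomial σ B))
            ((ι : MvPolynomial σ E →+* K).comp (mE : MvPolynomial σ B →+* MvPolynomial σ E))
            (X i)
          have h8 : ((ι : MvPolynomial σ E →+* K).comp
              (mE : MvPolynomial σ B →+* MvPolynomial σ E)).comp
              (algebraMap B (MvPolynomial σ B)) = c.comp (ψ : B →+* E) := by
            ext b
            change ι (mE (C b)) = ι (C (ψ b))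
            have : mE (C b) = C (ψ b) := map_C _ _
            rw [this]
          have h9 : ((ι : MvPolynomial σ E →+* K).comp
              (mE : MvPolynomial σ B →+* MvPolynomial σ E)) (X i) = ι (X i) := by
            change ι (mE (X i)) = _
            have : mE (X i) = X i := map_X _ _
            rw [this]
          rw [h8, h9] at h7
          exact h7
        change _ - j (g y) = 0
        rw [hj, h6, sub_self]
    intro x hx
    obtain ⟨f, ⟨h1, -⟩, hf⟩ := (show j x ∈ DK from hx)
    have h1' := mem_cf.1 h1
    have hf' : ι f = j x := hf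
    have hint : IsIntegral V (algebraMap KA K x) := by
      change IsIntegral V (j x)
      rw [← hf', f.as_sum, map_sum]
      refine IsIntegral.sum _ fun d _ => ?_
      rw [monomial_eq, map_mul, Finsupp.prod, map_prod]
      refine IsIntegral.mul ?_ (IsIntegral.prod _ fun i _ => ?_)
      · have h2 : eA (coeff d f) ∈ V := hCV _ (h1' d)
        have h3 : ι (C (coeff d f)) = algebraMap V K ⟨eA (coeff d f), h2⟩ := by
          change c (coeff d f) = j (eA (coeff d f))
          rw [hjc]
        rw [h3]
        exact isIntegral_algebraMap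
      · rw [map_pow]
        exact (hX i).pow _
    have hint' : IsIntegral V x := (isIntegral_algebraMap_iff (algebraMap KA K).injective).1 hint
    obtain ⟨z, hz⟩ := IsIntegrallyClosed.isIntegral_iff.1 hint'
    rw [← hz]
    exact z.2

end Pool.Agent.V11261.AK
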